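import Mathlib

set_option autoImplicit false

namespace Pool.Agent.Lib.MP_9486b1_co

/-- The edge ordered graph `(G, ord)` contains the edge ordered path `P_5^{1342}`:
distinct vertices `v 0, ..., v 4` forming a path with edge order `e1 < e4 < e2 < e3`. -/
def Contains {V : Type} (G : SimpleGraph V) (ord : LinearOrder G.edgeSet) : Prop :=
  ∃ (v : Fin 5 → V) (_ : Function.Injective v) (h1 : G.Adj (v 0) (v 1)) (h2 : G.Adj (v 1) (v 2))
    (h3 : G.Adj (v 2) (v 3)) (h4 : G.Adj (v 3) (v 4)),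
    ord.lt ⟨s(v 0, v 1), h1⟩ ⟨s(v 3, v 4), h4⟩ ∧ ord.lt ⟨s(v 3, v 4), h4⟩ ⟨s(v 1, v 2), h2⟩ ∧
      ord.lt ⟨s(v 1, v 2), h2⟩ ⟨s(v 2, v 3), h3⟩

/-- The maximum number of edges of an edge ordered graph on `n` vertices avoiding
`P_5^{1342}`. -/
noncomputable def ex (n : ℕ) : ℕ :=
  sSup {k | ∃ (G : SimpleGraph (Fin n)) (ord : LinearOrder G.edgeSet),
    ¬ Contains G ord ∧ G.edgeSet.ncard = k}

end Pool.Agent.Lib.MP_9486b1_co
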