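import Mathlib
import Pool.Agent.Lib.MP_9486b1_co.Defs

/-!
The recursive lower bound construction.
-/

set_option autoImplicit false

namespace Pool.Agent.Lib.MP_9486b1_co

open Sum

/-- A graph with (not necessarily distinct) edge labels that avoids the weak pattern. -/
structure EG (V : Type) where
  adj : V → V → Prop
  τ : V → V → ℕ
  B : ℕ
  symm : ∀ u v, adj u v → adj v u
  irr : ∀ u, ¬ adj u u
  τsymm : ∀ u v, adj u v → τ u v = τ v u
  lt_B : ∀ u v, adj u v → τ u v < B
  avoid : ∀ v1 v2 v3 v4 v5, adj v1 v2 → adj v2 v3 → adj v3 v4 → adj v4 v5 → v2 ≠ v4 →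
    τ v1 v2 ≤ τ v4 v5 → τ v4 v5 ≤ τ v2 v3 → τ v2 v3 ≤ τ v3 v4 → False

/-- Number of ordered adjacent pairs. -/
noncomputable def EG.cnt {V : Type} (G : EG V) : ℕ := Nat.card {e : V × V // G.adj e.1 e.2}

section

variable {M : ℕ} {R : Type} (L D : ℕ) (G : EG (Fin M × R))

def stepAdj : Fin M × ((Fin L ⊕ Fin D) × R) → Fin M × ((Fin L ⊕ Fin D) × R) → Prop
  | (a, inl σ, ρ), (a', inl σ', ρ') => σ = σ' ∧ G.adj (a, ρ) (a', ρ')
  | (a, inl σ, ρ), (m, inr i, ρ') => ρ = ρ' ∧ a.val = m.val + σ.val * L ^ i.val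
  | (m, inr i, ρ'), (a, inl σ, ρ) => ρ = ρ' ∧ a.val = m.val + σ.val * L ^ i.val
  | (_, inr _, _), (_, inr _, _) => False

def stepτ : Fin M × ((Fin L ⊕ Fin D) × R) → Fin M × ((Fin L ⊕ Fin D) × R) → ℕ
  | (a, inl σ, ρ), (a', inl _, ρ') => (L - 1 - σ.val) * G.B + G.τ (a, ρ) (a', ρ')
  | (a, inl _, _), (_, inr i, _) => L * G.B + (a.val * D + i.val)
  | (_, inr i, _), (a, inl _, _) => L * G.B + (a.val * D + i.val)
  | (_, inr _, _), (_, inr _, _) => 0

theorem early_lt {L B σ x : ℕ} (hσ : σ < L) (hx : x < B) : (L - 1 - σ) * B + x < L * B := by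
  have : (L - 1 - σ + 1) * B ≤ L * B := Nat.mul_le_mul_right _ (by omega)
  nlinarith

theorem lex_lt {a a' i i' D : ℕ} (hi : i < D) (h : a < a') : a * D + i < a' * D + i' := by
  have : (a + 1) * D ≤ a' * D := Nat.mul_le_mul_right _ h
  nlinarith

def step : EG (Fin M × ((Fin L ⊕ Fin D) × R)) where
  adj := stepAdj L D G
  τ := stepτ L D G
  B := L * G.B + M * D
  symm := by
    rintro ⟨a, σ | i, ρ⟩ ⟨a', σ' | i', ρ'⟩ h
    · exact ⟨h.1.symm, G.symm _ _ h.2⟩
    · exact h
    · exact h
    · exact h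
  irr := by
    rintro ⟨a, σ | i, ρ⟩ h
    · exact G.irr _ h.2
    · exact h
  τsymm := by
    rintro ⟨a, σ | i, ρ⟩ ⟨a', σ' | i', ρ'⟩ h
    · obtain ⟨rfl, h⟩ := h
      simp only [stepτ, G.τsymm _ _ h]
    · rfl
    · rfl
    · rfl
  lt_B := by
    rintro ⟨a, σ | i, ρ⟩ ⟨a', σ' | i', ρ'⟩ h
    · have := early_lt σ.2 (G.lt_B _ _ h.2)
      simp only [stepτ]
      omega
    · have := lex_lt (i' := 0) i'.2 a.2
      simp only [stepτ]
      omega
    · have := lex_lt (i' := 0) i.2 a'.2
      simp only [stepτ]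
      omega
    · exact h.elim
  avoid := by
    rintro ⟨a1, x1, ρ1⟩ ⟨a2, x2, ρ2⟩ ⟨a3, x3, ρ3⟩ ⟨a4, x4, ρ4⟩ ⟨a5, x5, ρ5⟩ h12 h23 h34 h45 hne
      t1 t2 t3
    rcases x3 with σ3 | i3
    · rcases x4 with σ4 | i4
      · have e34 := early_lt σ3.2 (G.lt_B _ _ h34.2)
        rcases x2 with σ2 | i2
        · have e23 := early_lt σ2.2 (G.lt_B _ _ h23.2)
          rcases x5 with σ5 | i5
          · have e45 := early_lt σ4.2 (G.lt_B _ _ h45.2)
            rcases x1 with σ1 | i1
            · obtain ⟨rfl, h12⟩ := h12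
              obtain ⟨rfl, h23⟩ := h23
              obtain ⟨rfl, h34⟩ := h34
              obtain ⟨rfl, h45⟩ := h45
              simp only [stepτ] at t1 t2 t3
              refine G.avoid _ _ _ _ _ h12 h23 h34 h45 ?_ (by omega) (by omega) (by omega)
              intro h
              simp only [Prod.mk.injEq] at h
              exact hne (by rw [h.1, h.2])
            · simp only [stepτ] at t1
              omega
          · simp only [stepτ] at t2
            omega
        · simp only [stepτ] at t3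
          omega
      · rcases x5 with σ5 | i5
        · rcases x2 with σ2 | i2
          · have e23 := early_lt σ2.2 (G.lt_B _ _ h23.2)
            simp only [stepτ] at t2
            omega
          · rcases x1 with σ1 | i1
            · obtain ⟨rfl, h12⟩ := h12
              obtain ⟨rfl, h23⟩ := h23
              obtain ⟨rfl, h34⟩ := h34
              obtain ⟨rfl, h45⟩ := h45
              simp only [stepτ] at t1 t2 t3
              have hi : i2.val < i4.val := by
                rcases (show i2.val ≤ i4.val by omega).eq_or_lt with h | h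
                · exfalso
                  apply hne
                  have h1 : i2 = i4 := Fin.ext h
                  subst h1
                  have h2 : a2 = a4 := Fin.ext (by omega)
                  rw [h2]
                · exact h
              have h53 : a5.val < a3.val := by
                by_contra hc
                have := Nat.mul_le_mul_right D (not_lt.1 hc)
                omega
              have hσ : σ5.val < σ3.val := by
                by_contra hc
                have := Nat.mul_le_mul_right (L ^ i4.val) (not_lt.1 hc)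
                omega
              have b1 : (σ5.val + 1) * L ^ i4.val ≤ σ3.val * L ^ i4.val :=
                Nat.mul_le_mul_right _ hσ
              have hL : 0 < L := by have := σ3.2; omega
              have b2 : L ^ (i2.val + 1) ≤ L ^ i4.val := Nat.pow_le_pow_right hL hi
              have b3 : σ3.val * L ^ i2.val < L * L ^ i2.val :=
                Nat.mul_lt_mul_of_pos_right σ3.2 (by positivity)
              rw [pow_succ, mul_comm] at b2
              have b4 : a5.val < a1.val := by
                rw [add_mul, one_mul] at b1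
                omega
              have := lex_lt (i' := i2.val) i4.2 b4
              omega
            · exact h12
        · exact h45
    · rcases x2 with σ2 | i2
      · rcases x4 with σ4 | i4
        · obtain ⟨rfl, h23⟩ := h23
          obtain ⟨rfl, h34⟩ := h34
          simp only [stepτ] at t3
          have h24 : a2.val ≤ a4.val := by
            by_contra hc
            have := lex_lt (i' := i3.val) i3.2 (not_le.1 hc)
            omega
          have hL : 0 < L := by have := σ2.2; omega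
          have hσ : σ2.val < σ4.val := by
            rcases lt_trichotomy σ2.val σ4.val with h | h | h
            · exact h
            · exfalso
              apply hne
              have h1 : σ2 = σ4 := Fin.ext h
              subst h1
              have h2 : a2 = a4 := Fin.ext (by omega)
              rw [h2]
            · have := Nat.mul_lt_mul_of_pos_right h (show 0 < L ^ i3.val by positivity)
              omega
          have h24' : a2.val < a4.val := by
            have := Nat.mul_lt_mul_of_pos_right hσ (show 0 < L ^ i3.val by positivity)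
            omega
          rcases x5 with σ5 | i5
          · have e45 := early_lt σ4.2 (G.lt_B _ _ h45.2)
            rcases x1 with σ1 | i1
            · obtain ⟨rfl, h12⟩ := h12
              simp only [stepτ] at t1
              have := lex_lt (a := L - 1 - σ4.val) (a' := L - 1 - σ1.val)
                (i' := G.τ (a1, ρ1) (a2, ρ4)) (G.lt_B _ _ h45.2) (by have := σ4.2; omega)
              omega
            · simp only [stepτ] at t1
              omega
          · simp only [stepτ] at t2
            have := lex_lt (i' := i5.val) i3.2 h24'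
            omega
        · exact h34
      · exact h23

end

theorem step_cnt {R : Type} [Finite R] (L D : ℕ) (G : EG (Fin (2 * L ^ D) × R)) :
    L * G.cnt + L * (D * (L ^ D * Nat.card R)) ≤ (step L D G).cnt := by
  have hb : ∀ (σ : Fin L) (i : Fin D) (m : Fin (L ^ D)),
      m.val + σ.val * L ^ i.val < 2 * L ^ D := by
    intro σ i m
    have hL : 0 < L := by have := σ.2; omega
    have b2 : L ^ (i.val + 1) ≤ L ^ D := Nat.pow_le_pow_right hL i.2
    have b3 : σ.val * L ^ i.val < L * L ^ i.val := Nat.mul_lt_mul_of_pos_right σ.2 (by positivity)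
    rw [pow_succ, mul_comm] at b2
    have := m.2
    omega
  let f : (Fin L × {e : (Fin (2 * L ^ D) × R) × (Fin (2 * L ^ D) × R) // G.adj e.1 e.2}) ⊕
      (Fin L × Fin D × Fin (L ^ D) × R) →
      {e : (Fin (2 * L ^ D) × ((Fin L ⊕ Fin D) × R)) × (Fin (2 * L ^ D) × ((Fin L ⊕ Fin D) × R)) //
        (step L D G).adj e.1 e.2} := fun x =>
    match x with
    | inl (σ, e) => ⟨((e.1.1.1, inl σ, e.1.1.2), (e.1.2.1, inl σ, e.1.2.2)), rfl, e.2⟩
    | inr (σ, i, m, ρ) => ⟨((⟨m.val + σ.val * L ^ i.val, hb σ i m⟩, inl σ, ρ),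
        (⟨m.val, by have := m.2; omega⟩, inr i, ρ)), rfl, rfl⟩
  have hf : Function.Injective f := by
    rintro (⟨σ, ⟨⟨⟨a, ρ⟩, ⟨b, ρ'⟩⟩, h⟩⟩ | ⟨σ, i, m, ρ⟩)
      (⟨σ', ⟨⟨⟨a', ρ2⟩, ⟨b', ρ2'⟩⟩, h'⟩⟩ | ⟨σ', i', m', ρ2⟩) e
    · simp only [f, Subtype.mk.injEq, Prod.mk.injEq, inl.injEq] at e
      obtain ⟨⟨rfl, rfl, rfl⟩, rfl, -, rfl⟩ := e
      rfl
    · simp [f] at e
    · simp [f] at e
    · simp only [f, Subtype.mk.injEq, Prod.mk.injEq, inl.injEq, inr.injEq, Fin.mk.injEq] at e
      obtain ⟨⟨-, rfl, rfl⟩, h, rfl, -⟩ := e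
      rw [Fin.ext h]
  have := Nat.card_le_card_of_injective f hf
  simpa [Nat.card_sum, Nat.card_prod, EG.cnt] using this

theorem exists_level (L D R0 h : ℕ) :
    ∃ (R : Type) (_ : Finite R) (G : EG (Fin (2 * L ^ D) × R)),
      Nat.card R = (L + D) ^ h * R0 ∧ h * D * L ^ D * L ^ h * R0 ≤ G.cnt := by
  induction h with
  | zero =>
    exact ⟨Fin R0, inferInstance, ⟨fun _ _ => False, fun _ _ => 0, 0, by simp, by simp, by simp,
      by simp, by simp⟩, by simp, by simp⟩
  | succ h ih =>
    obtain ⟨R, hR, G, h1, h2⟩ := ih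
    refine ⟨(Fin L ⊕ Fin D) × R, inferInstance, step L D G, ?_, le_trans ?_ (step_cnt L D G)⟩
    · rw [Nat.card_prod, Nat.card_sum, h1]
      simp only [Nat.card_eq_fintype_card, Fintype.card_fin]
      ring
    · rw [h1]
      have a1 : L ^ h ≤ (L + D) ^ h := Nat.pow_le_pow_left (by omega) h
      have a2 := Nat.mul_le_mul_left L h2
      have a3 := Nat.mul_le_mul_left (L * D * L ^ D * R0) a1
      have e : (h + 1) * D * L ^ D * L ^ (h + 1) * R0 =
          L * (h * D * L ^ D * L ^ h * R0) + L * D * L ^ D * R0 * L ^ h := by ring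
      have e2 : L * (D * (L ^ D * ((L + D) ^ h * R0))) = L * D * L ^ D * R0 * (L + D) ^ h := by ring
      omega

theorem ex_bdd (n : ℕ) : BddAbove {k | ∃ (G : SimpleGraph (Fin n)) (ord : LinearOrder G.edgeSet),
    ¬ Contains G ord ∧ G.edgeSet.ncard = k} := by
  refine ⟨Nat.card (Sym2 (Fin n)), ?_⟩
  rintro k ⟨G, -, -, rfl⟩
  exact Set.ncard_le_card _

theorem cnt_le_ex {V : Type} [Finite V] (G : EG V) {n : ℕ} (hn : Nat.card V ≤ n) :
    G.cnt ≤ 2 * ex n := by
  classical
  have := Fintype.ofFinite V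
  obtain ⟨f⟩ : Nonempty (V ↪ Fin n) :=
    Function.Embedding.nonempty_of_card_le (by simpa using hn)
  let H : SimpleGraph (Fin n) :=
    { Adj := fun x y => ∃ u v, f u = x ∧ f v = y ∧ G.adj u v
      symm := ⟨fun x y ⟨u, v, h1, h2, h3⟩ => ⟨v, u, h2, h1, G.symm _ _ h3⟩⟩
      loopless := ⟨fun x ⟨u, v, h1, h2, h3⟩ => G.irr u (by
        rwa [f.injective (h2.trans h1.symm)] at h3)⟩ }
  have hlab : ∀ e : H.edgeSet, ∃ k, ∀ u v, G.adj u v → e.1 = s(f u, f v) → G.τ u v = k := by
    rintro ⟨e, he⟩
    induction e using Sym2.ind with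
    | _ x y =>
      have he' : H.Adj x y := he
      obtain ⟨u, v, hu, hv, h⟩ := he'
      refine ⟨G.τ u v, fun u' v' h' e => ?_⟩
      have e' : s(f u, f v) = s(f u', f v') := by rw [hu, hv]; exact e
      rcases Sym2.eq_iff.1 e' with ⟨a, b⟩ | ⟨a, b⟩
      · rw [f.injective a, f.injective b]
      · rw [f.injective a, f.injective b, G.τsymm _ _ h']
  choose lab hlab using hlab
  let idx := Fintype.equivFin H.edgeSet
  let ord : LinearOrder H.edgeSet := LinearOrder.lift' (fun e => toLex (lab e, idx e)) (by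
    intro a b h
    exact idx.injective (congrArg (fun p => (ofLex p).2) h))
  have hord : ∀ a b : H.edgeSet, ord.lt a b → lab a ≤ lab b := by
    intro a b h
    have h' : toLex (lab a, idx a) < toLex (lab b, idx b) := h
    rcases Prod.Lex.toLex_lt_toLex.1 h' with g | g
    · exact g.le
    · exact g.1.le
  have hav : ¬ Contains H ord := by
    rintro ⟨v, hv, h1, h2, h3, h4, o1, o2, o3⟩
    have p1 := hord _ _ o1
    have p2 := hord _ _ o2
    have p3 := hord _ _ o3
    obtain ⟨u0, u1, e0, e1, a1⟩ := id h1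
    obtain ⟨u1', u2, e1', e2, a2⟩ := id h2
    obtain ⟨u2', u3, e2', e3, a3⟩ := id h3
    obtain ⟨u3', u4, e3', e4, a4⟩ := id h4
    obtain rfl := f.injective (e1.trans e1'.symm)
    obtain rfl := f.injective (e2.trans e2'.symm)
    obtain rfl := f.injective (e3.trans e3'.symm)
    rw [← hlab _ u0 u1 a1 (by rw [e0, e1]), ← hlab _ u3 u4 a4 (by rw [e3, e4])] at p1
    rw [← hlab _ u3 u4 a4 (by rw [e3, e4]), ← hlab _ u1 u2 a2 (by rw [e1, e2])] at p2
    rw [← hlab _ u1 u2 a2 (by rw [e1, e2]), ← hlab _ u2 u3 a3 (by rw [e2, e3])] at p3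
    refine G.avoid _ _ _ _ _ a1 a2 a3 a4 ?_ p1 p2 p3
    rintro rfl
    exact absurd (hv (e1.symm.trans e3)) (by decide)
  have h1 : H.edgeSet.ncard ≤ ex n := le_csSup (ex_bdd n) ⟨H, ord, hav, rfl⟩
  have h3 : H.edgeSet.ncard = H.edgeFinset.card := by
    rw [← SimpleGraph.coe_edgeFinset, Set.ncard_coe_finset]
  have h4 : G.cnt ≤ 2 * H.edgeFinset.card := by
    rw [← H.dart_card_eq_twice_card_edges, ← Nat.card_eq_fintype_card]
    apply Nat.card_le_card_of_injective
      (fun e : {e : V × V // G.adj e.1 e.2} =>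
        (⟨(f e.1.1, f e.1.2), _, _, rfl, rfl, e.2⟩ : H.Dart))
    intro a b h
    simp only [SimpleGraph.Dart.mk.injEq, Prod.mk.injEq] at h
    exact Subtype.ext (Prod.ext (f.injective h.1) (f.injective h.2))
  omega

theorem lower_fin {D n : ℕ} (hD : 1 ≤ D) (hn : 6 * D ^ (4 * D) ≤ n) : D ^ 2 * n ≤ 24 * ex n := by
  have h3 : (D ^ 2 + D) ^ D ≤ 3 * (D ^ 2) ^ D := by
    have hD' : (0 : ℝ) < D := by exact_mod_cast hD
    have a1 : ((D : ℝ) ^ 2 + D) ≤ D ^ 2 * Real.exp (1 / D) := by
      have := mul_le_mul_of_nonneg_left (Real.add_one_le_exp (1 / (D : ℝ))) (sq_nonneg (D : ℝ))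
      refine le_trans (le_of_eq ?_) this
      field_simp; ring
    have a2 := pow_le_pow_left₀ (by positivity) a1 D
    rw [mul_pow, ← Real.exp_nat_mul, mul_one_div_cancel hD'.ne'] at a2
    have a3 := Real.exp_one_lt_d9
    have a4 : ((D : ℝ) ^ 2 + D) ^ D ≤ 3 * ((D : ℝ) ^ 2) ^ D := by
      have : (0 : ℝ) ≤ ((D : ℝ) ^ 2) ^ D := by positivity
      nlinarith
    exact_mod_cast a4
  set q := 2 * (D ^ 2) ^ D * (D ^ 2 + D) ^ D with hq
  have hq0 : 0 < q := by positivity
  have hq1 : q ≤ 6 * ((D ^ 2) ^ D * (D ^ 2) ^ D) := by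
    have := Nat.mul_le_mul_left (2 * (D ^ 2) ^ D) h3
    nlinarith
  have hq2 : q ≤ n := by
    refine hq1.trans (le_trans (le_of_eq ?_) hn)
    ring
  obtain ⟨R, hR, G, c1, c2⟩ := exists_level (D ^ 2) D (n / q) D
  have c3 := cnt_le_ex G (n := n) (by
    rw [Nat.card_prod, c1]
    simp only [Nat.card_eq_fintype_card, Fintype.card_fin]
    rw [← mul_assoc, ← hq]
    exact Nat.mul_div_le n q)
  have c4 : n ≤ 2 * (q * (n / q)) := by
    have a := Nat.div_add_mod n q
    have b := Nat.mod_lt n hq0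
    have c : 1 ≤ n / q := (Nat.one_le_div_iff hq0).2 hq2
    nlinarith
  have c5 := Nat.mul_le_mul_right (n / q) hq1
  have c6 : D ^ 2 * n ≤ D ^ 2 * (2 * (6 * ((D ^ 2) ^ D * (D ^ 2) ^ D) * (n / q))) :=
    Nat.mul_le_mul_left _ (by omega)
  have e : D ^ 2 * (2 * (6 * ((D ^ 2) ^ D * (D ^ 2) ^ D) * (n / q))) =
      12 * (D * D * (D ^ 2) ^ D * (D ^ 2) ^ D * (n / q)) := by ring
  omega

end Pool.Agent.Lib.MP_9486b1_co
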