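import Mathlib

/-!
The core counting argument for the upper bound.
-/

set_option autoImplicit false

namespace Pool.Agent.Lib.MP_9486b1_co

open Finset

/-- Logarithmic level with ratio `1 + 1/L`. -/
noncomputable def lev (L x : ℕ) : ℕ := ⌊Real.log x / Real.log (1 + 1 / L)⌋₊

theorem log_ratio_pos {L : ℕ} (hL : 1 ≤ L) : 0 < Real.log (1 + 1 / L) := by
  have : (0 : ℝ) < L := by exact_mod_cast hL
  exact Real.log_pos (by simp [this])

theorem lev_mono {L x y : ℕ} (hL : 1 ≤ L) (hx : 1 ≤ x) (h : x ≤ y) : lev L x ≤ lev L y := by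
  apply Nat.floor_le_floor
  apply div_le_div_of_nonneg_right _ (log_ratio_pos hL).le
  exact Real.log_le_log (by exact_mod_cast hx) (by exact_mod_cast h)

theorem lev_close {L x y : ℕ} (hL : 1 ≤ L) (hx : 1 ≤ x) (hy : 1 ≤ y) (h : lev L y ≤ lev L x) :
    L * y < (L + 1) * x := by
  have hl := log_ratio_pos hL
  have hL' : (0 : ℝ) < L := by exact_mod_cast hL
  have hx' : (0 : ℝ) < x := by exact_mod_cast hx
  have hy' : (0 : ℝ) < y := by exact_mod_cast hy
  have h1 : Real.log y / Real.log (1 + 1 / L) < lev L y + 1 := Nat.lt_floor_add_one _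
  have h2 : (lev L x : ℝ) ≤ Real.log x / Real.log (1 + 1 / L) :=
    Nat.floor_le (div_nonneg (Real.log_nonneg (by exact_mod_cast hx)) hl.le)
  have h3 : (lev L y : ℝ) ≤ lev L x := by exact_mod_cast h
  have h4 : Real.log y < Real.log x + Real.log (1 + 1 / L) := by
    have : Real.log y / Real.log (1 + 1 / L) < Real.log x / Real.log (1 + 1 / L) + 1 := by linarith
    rw [div_add_one hl.ne', div_lt_div_iff_of_pos_right hl] at this
    exact this
  rw [← Real.log_mul hx'.ne' (by positivity), Real.log_lt_log_iff hy' (by positivity)] at h4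
  have : (L : ℝ) * y < (L + 1) * x := by
    have := mul_lt_mul_of_pos_left h4 hL'
    refine this.trans_le (le_of_eq ?_)
    field_simp
  exact_mod_cast this

theorem lev_le {L n : ℕ} (hL : 1 ≤ L) (hn : 1 ≤ n) : (lev L n : ℝ) ≤ (L + 1) * Real.log n := by
  have hl := log_ratio_pos hL
  have hL' : (0 : ℝ) < L := by exact_mod_cast hL
  have h0 : 0 ≤ Real.log n := Real.log_nonneg (by exact_mod_cast hn)
  refine (Nat.floor_le (div_nonneg h0 hl.le)).trans ?_
  rw [div_le_iff₀ hl]
  have h1 : 1 - (1 + 1 / (L : ℝ))⁻¹ ≤ Real.log (1 + 1 / L) :=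
    Real.one_sub_inv_le_log_of_pos (by positivity)
  have h2 : 1 - (1 + 1 / (L : ℝ))⁻¹ = 1 / (L + 1) := by field_simp; ring
  rw [h2, div_le_iff₀ (by positivity)] at h1
  nlinarith

theorem log_lt_of_mul_lt {L x y : ℕ} (hL : 2 ≤ L) (hx : 1 ≤ x) (h : L * x ≤ y) :
    Nat.log L x < Nat.log L y := by
  have := Nat.log_mul_base (b := L) (by omega) (n := x) (by omega)
  have h2 := Nat.log_mono_right (b := L) (show x * L ≤ y by rwa [mul_comm])
  omega

section

variable {V : Type} [Fintype V] (m : V → ℕ)

/-- Number of births in `[a, b)`. -/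
def mu (a b : ℕ) : ℕ := #{v : V | a ≤ m v ∧ m v < b}

theorem mu_le_card (a b : ℕ) : mu m a b ≤ Fintype.card V := card_le_univ _

theorem mu_pos (v : V) {a b : ℕ} (h1 : a ≤ m v) (h2 : m v < b) : 1 ≤ mu m a b :=
  card_pos.2 ⟨v, by simp [h1, h2]⟩

theorem mu_mono {a b a' b' : ℕ} (h1 : a' ≤ a) (h2 : b ≤ b') : mu m a b ≤ mu m a' b' := by
  apply card_le_card
  intro v hv
  simp only [mem_filter, mem_univ, true_and] at hv ⊢
  omega

theorem mu_add {a b c d e f : ℕ} (h1 : e ≤ a) (h0 : a ≤ b) (h2 : b ≤ c) (h4 : c ≤ d) (h3 : d ≤ f) :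
    mu m a b + mu m c d ≤ mu m e f := by
  classical
  unfold mu
  rw [← card_union_of_disjoint]
  · apply card_le_card
    intro v hv
    simp only [mem_union, mem_filter, mem_univ, true_and] at hv ⊢
    omega
  · rw [disjoint_filter]
    intro v _ h h'
    omega

end

theorem core {V : Type} [Fintype V] [DecidableEq V] (adj : V → V → Prop) [DecidableRel adj]
    (t : V → V → ℕ) (m : V → ℕ) (L : ℕ) (hL : 2 ≤ L)
    (symm : ∀ u v, adj u v → adj v u) (tsymm : ∀ u v, t u v = t v u)
    (tinj : ∀ u v x y, adj u v → adj x y → t u v = t x y → (u = x ∧ v = y) ∨ (u = y ∧ v = x))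
    (hM : ∀ o w, adj o w → m o < t o w → ∃ z, adj o z ∧ t o z = m o)
    (hC : ∀ u x y z, adj u x → adj u y → adj y z → t u x < t u y → m x < t y z →
      t y z < t u x → False) :
    #{e : V × V | adj e.1 e.2 ∧ m e.1 < m e.2 ∧ m e.2 < t e.1 e.2} ≤
      Fintype.card V * (2 * lev L (Fintype.card V) + 1) +
        Fintype.card V * (Nat.log L (Fintype.card V) + 1) ^ 2 := by
  classical
  have hL1 : 1 ≤ L := by omega
  let P : V × V → Prop := fun e => adj e.1 e.2 ∧ m e.1 < m e.2 ∧ m e.2 < t e.1 e.2
  let γ : V × V → ℕ := fun e => mu m (m e.1) (t e.1 e.2)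
  let α : V × V → ℕ := fun e => mu m (m e.2) (t e.1 e.2)
  let key : V × V → ℕ := fun e => lev L (γ e) + lev L (α e)
  let Q : V × V → Prop := fun e => ∃ o', P (o', e.2) ∧ t o' e.2 < t e.1 e.2 ∧ key (o', e.2) = key e
  have γpos : ∀ e, P e → 1 ≤ γ e := fun e he => mu_pos m e.1 le_rfl (he.2.1.trans he.2.2)
  have αpos : ∀ e, P e → 1 ≤ α e := fun e he => mu_pos m e.2 le_rfl he.2.2
  -- times of `o` avoid the interval `(m o', t o' w)`
  have avoid : ∀ o o' w z, P (o, w) → P (o', w) → t o' w < t o w → adj o z → t o z < t o' w →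
      t o z ≤ m o' := by
    intro o o' w z h h' hlt hz h1
    by_contra hc
    exact hC w o' o z (symm _ _ h'.1) (symm _ _ h.1) hz (by rw [tsymm w, tsymm w]; exact hlt)
      (by omega) (by rw [tsymm w]; exact h1)
  have mle : ∀ o o' w, P (o, w) → P (o', w) → t o' w < t o w → m o ≤ m o' := by
    intro o o' w h h' hlt
    obtain ⟨z, hz, e⟩ := hM o w h.1 (h.2.1.trans h.2.2)
    have := avoid o o' w z h h' hlt hz (by
      have a := h.2.1
      have b := h'.2.2
      simp only at a b
      omega)
    omega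
  have close : ∀ o o' w, P (o, w) → P (o', w) → t o' w < t o w → key (o', w) = key (o, w) →
      L * γ (o, w) < (L + 1) * γ (o', w) ∧ L * α (o, w) < (L + 1) * α (o', w) := by
    intro o o' w h h' hlt hk
    have a1 : lev L (γ (o', w)) ≤ lev L (γ (o, w)) :=
      lev_mono hL1 (γpos _ h') (mu_mono m (mle o o' w h h' hlt) hlt.le)
    have a2 : lev L (α (o', w)) ≤ lev L (α (o, w)) :=
      lev_mono hL1 (αpos _ h') (mu_mono m le_rfl hlt.le)
    simp only [key] at hk
    exact ⟨lev_close hL1 (γpos _ h') (γpos _ h) (by omega),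
      lev_close hL1 (αpos _ h') (αpos _ h) (by omega)⟩
  have hr : ∀ e : V × V, ∃ r, P e → (∃ z, adj e.1 z ∧ t e.1 z = r) ∧ m e.2 < r ∧
      ∀ z, adj e.1 z → m e.2 < t e.1 z → r ≤ t e.1 z := by
    intro e
    by_cases he : P e
    · have hex : ∃ r, ∃ z, adj e.1 z ∧ t e.1 z = r ∧ m e.2 < r := ⟨_, e.2, he.1, rfl, he.2.2⟩
      obtain ⟨z, hz1, hz2, hz3⟩ := Nat.find_spec hex
      exact ⟨Nat.find hex, fun _ => ⟨⟨z, hz1, hz2⟩, hz3,
        fun z' h1 h2 => Nat.find_min' hex ⟨z', h1, rfl, h2⟩⟩⟩
    · exact ⟨0, fun h => absurd h he⟩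
  choose r hr using hr
  have rge : ∀ o o' w, P (o, w) → P (o', w) → t o' w < t o w → t o' w ≤ r (o, w) := by
    intro o o' w h h' hlt
    obtain ⟨⟨z, hz, e⟩, h2, -⟩ := hr _ h
    by_contra hc
    have := avoid o o' w z h h' hlt hz (by simp only at e; omega)
    have a := h'.2.1
    simp only at a e h2
    omega
  have rle : ∀ e, P e → r e ≤ t e.1 e.2 := fun e he => (hr e he).2.2 _ he.1 he.2.2
  have split : #{e : V × V | P e} ≤ #{e : V × V | P e ∧ ¬ Q e} + #{e : V × V | P e ∧ Q e} := by
    refine le_trans (card_le_card ?_) (card_union_le _ _)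
    intro e he
    simp only [mem_union, mem_filter, mem_univ, true_and] at he ⊢
    by_cases hq : Q e
    · exact Or.inr ⟨he, hq⟩
    · exact Or.inl ⟨he, hq⟩
  refine split.trans (add_le_add ?_ ?_)
  · have : #{e : V × V | P e ∧ ¬ Q e} ≤
        #((univ : Finset V) ×ˢ range (2 * lev L (Fintype.card V) + 1)) := by
      apply card_le_card_of_injOn (fun e => (e.2, key e))
      · intro e he
        simp only [coe_filter, mem_univ, true_and, Set.mem_ofPred_eq] at he
        simp only [coe_product, coe_univ, coe_range, Set.mem_prod, Set.mem_univ, true_and,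
          Set.mem_Iio]
        have a1 := lev_mono hL1 (γpos _ he.1) (mu_le_card m _ _)
        have a2 := lev_mono hL1 (αpos _ he.1) (mu_le_card m _ _)
        simp only [key]
        omega
      · rintro ⟨o, w⟩ he ⟨o', w'⟩ he' h
        simp only [coe_filter, mem_univ, true_and, Set.mem_ofPred_eq] at he he'
        simp only [Prod.mk.injEq] at h
        obtain ⟨rfl, hk⟩ := h
        rcases lt_trichotomy (t o w) (t o' w) with h | h | h
        · exact absurd ⟨o, he.1, h, hk⟩ he'.2
        · rcases tinj _ _ _ _ he.1.1 he'.1.1 h with h | h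
          · exact Prod.ext h.1 rfl
          · have a := he.1.2.1
            simp only at a h
            rw [h.1] at a
            omega
        · exact absurd ⟨o', he'.1, h, hk.symm⟩ he.2
    simpa using this
  · have A : ∀ o w1 w2, P (o, w1) → P (o, w2) → Q (o, w2) → r (o, w1) < r (o, w2) →
        Nat.log L (mu m (m o) (r (o, w1))) < Nat.log L (mu m (m o) (r (o, w2))) := by
      rintro o w1 w2 h1 h2 ⟨o', h', hlt, hk⟩ hr12
      simp only at h' hlt hk
      obtain ⟨⟨z, hz, e⟩, g2, -⟩ := hr _ h1
      obtain ⟨-, -, g3⟩ := hr _ h2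
      simp only at hz e g2 g3
      have b1 : r (o, w1) ≤ m w2 := by
        by_contra hc
        have := g3 z hz (by omega)
        omega
      have b0 := h'.2.2
      have b00 := h1.2.1
      have b000 := h'.2.1
      simp only at b0 b00 b000
      have b2 := avoid o o' w2 z h2 h' hlt hz (by omega)
      have b3 := mu_add m (a := m o) (b := r (o, w1)) (c := m o') (d := t o' w2) (e := m o)
        (f := r (o, w2)) le_rfl (by omega) (by omega) (by omega) (rge o o' w2 h2 h' hlt)
      have b4 := (close o o' w2 h2 h' hlt hk).1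
      have b5 : mu m (m o) (r (o, w2)) ≤ γ (o, w2) := mu_mono m le_rfl (rle _ h2)
      have b6 : 1 ≤ mu m (m o) (r (o, w1)) := mu_pos m o le_rfl (by omega)
      apply log_lt_of_mul_lt hL b6
      simp only [γ] at b4 b5
      nlinarith
    have B : ∀ o w1 w2, P (o, w1) → P (o, w2) → Q (o, w2) → r (o, w1) = r (o, w2) →
        t o w1 < t o w2 →
        Nat.log L (mu m (m w1) (r (o, w1))) < Nat.log L (mu m (m w2) (r (o, w2))) := by
      rintro o w1 w2 h1 h2 ⟨o', h', hlt, hk⟩ hr12 ht
      simp only at h' hlt hk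
      have c1 := rge o o' w2 h2 h' hlt
      have c2 := rle _ h1
      have c3 := (hr _ h1).2.1
      have c0 := h'.2.2
      have c00 := h2.2.1
      simp only at c2 c3 c0 c00
      have c4 : t o' w2 ≠ t o w1 := by
        intro h
        rcases tinj _ _ _ _ h'.1 h1.1 h with h | h
        · simp only at h
          rw [h.1] at hlt
          omega
        · simp only at h
          rw [h.2] at c00
          omega
      have c5 : t o' w2 ≤ m w1 := by
        by_contra hc
        exact hC o w1 w2 o' h1.1 h2.1 (symm _ _ h'.1) ht (by rw [tsymm]; omega)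
          (by rw [tsymm]; omega)
      have b3 := mu_add m (a := m w2) (b := t o' w2) (c := m w1) (d := r (o, w1)) (e := m w2)
        (f := r (o, w2)) le_rfl (by omega) c5 (by omega) hr12.le
      have b4 := (close o o' w2 h2 h' hlt hk).2
      have b5 : mu m (m w2) (r (o, w2)) ≤ α (o, w2) := mu_mono m le_rfl (rle _ h2)
      have b6 : 1 ≤ mu m (m w1) (r (o, w1)) := mu_pos m w1 le_rfl c3
      apply log_lt_of_mul_lt hL b6
      simp only [α] at b4 b5
      nlinarith
    have : #{e : V × V | P e ∧ Q e} ≤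
        #((univ : Finset V) ×ˢ range (Nat.log L (Fintype.card V) + 1) ×ˢ
          range (Nat.log L (Fintype.card V) + 1)) := by
      apply card_le_card_of_injOn
        (fun e => (e.1, Nat.log L (mu m (m e.1) (r e)), Nat.log L (mu m (m e.2) (r e))))
      · intro e _
        simp only [coe_product, coe_univ, coe_range, Set.mem_prod, Set.mem_univ, true_and,
          Set.mem_Iio]
        exact ⟨Nat.lt_succ_of_le (Nat.log_mono_right (mu_le_card m _ _)),
          Nat.lt_succ_of_le (Nat.log_mono_right (mu_le_card m _ _))⟩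
      · rintro ⟨o, w⟩ he ⟨o', w'⟩ he' h
        simp only [coe_filter, mem_univ, true_and, Set.mem_ofPred_eq] at he he'
        simp only [Prod.mk.injEq] at h
        obtain ⟨rfl, hk1, hk2⟩ := h
        rcases lt_trichotomy (r (o, w)) (r (o, w')) with h | h | h
        · exact absurd hk1 (A o w w' he.1 he'.1 he'.2 h).ne
        · rcases lt_trichotomy (t o w) (t o w') with g | g | g
          · exact absurd hk2 (B o w w' he.1 he'.1 he'.2 h g).ne
          · rcases tinj _ _ _ _ he.1.1 he'.1.1 g with g | g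
            · exact Prod.ext rfl g.2
            · have a := he.1.2.1
              simp only at a g
              rw [g.2] at a
              omega
          · exact absurd hk2.symm (B o w' w he'.1 he.1 he.2 h.symm g).ne
        · exact absurd hk1.symm (A o w' w he'.1 he.1 he.2 h).ne
    simpa [sq] using this

end Pool.Agent.Lib.MP_9486b1_co
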