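import Mathlib
import Pool.Agent.Lib.MP_9486b1_co.Defs
import Pool.Agent.Lib.MP_9486b1_co.Core

/-!
The finite upper bound.
-/

set_option autoImplicit false

namespace Pool.Agent.Lib.MP_9486b1_co

open Finset

theorem exists_cut {V : Type} [Fintype V] [DecidableEq V] (adj : V → V → Prop) [DecidableRel adj]
    (irr : ∀ u v, adj u v → u ≠ v) :
    ∃ s : V → Bool, #{e : V × V | adj e.1 e.2} ≤ 2 * #{e : V × V | adj e.1 e.2 ∧ s e.1 ≠ s e.2} := by
  have half : ∀ u v : V, u ≠ v → Fintype.card (V → Bool) ≤ 2 * #{s : V → Bool | s u ≠ s v} := by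
    intro u v huv
    have h1 : #{s : V → Bool | ¬ s u ≠ s v} ≤ #{s : V → Bool | s u ≠ s v} := by
      apply card_le_card_of_injOn (fun s => Function.update s u (!s u))
      · intro s hs
        simp only [coe_filter, mem_univ, true_and, Set.mem_ofPred_eq, not_not] at hs ⊢
        rw [Function.update_self, Function.update_of_ne huv.symm, hs]
        simp
      · intro s _ s' _ h
        funext x
        have := congrFun h x
        by_cases hx : x = u
        · subst hx
          simpa using this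
        · simpa [Function.update_of_ne hx] using this
    have h2 := card_filter_add_card_filter_not (s := (univ : Finset (V → Bool)))
      (fun s => s u ≠ s v)
    rw [card_univ] at h2
    omega
  have key : ∑ _s : V → Bool, #{e : V × V | adj e.1 e.2} ≤
      ∑ s : V → Bool, 2 * #{e : V × V | adj e.1 e.2 ∧ s e.1 ≠ s e.2} := by
    have e1 : ∀ s : V → Bool, #{e : V × V | adj e.1 e.2 ∧ s e.1 ≠ s e.2} =
        ∑ e ∈ (univ.filter fun e : V × V => adj e.1 e.2), if s e.1 ≠ s e.2 then 1 else 0 := by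
      intro s
      rw [← card_filter, filter_filter]
    simp only [e1]
    rw [← mul_sum, sum_comm, mul_sum, sum_const, card_univ, smul_eq_mul, mul_comm,
      card_eq_sum_ones, sum_mul]
    apply sum_le_sum
    intro e he
    rw [← card_filter, one_mul]
    exact half _ _ (irr _ _ (mem_filter.1 he).2)
  obtain ⟨s, -, hs⟩ := exists_le_of_sum_le univ_nonempty key
  exact ⟨s, hs⟩

theorem exists_rank (α : Type) [Finite α] [LinearOrder α] :
    ∃ rk : α → ℕ, ∀ a b, rk a < rk b ↔ a < b := by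
  classical
  have := Fintype.ofFinite α
  let rk : α → ℕ := fun e => #{e' : α | e' < e}
  have hrk : StrictMono rk := by
    intro a b hab
    apply card_lt_card
    rw [ssubset_iff_of_subset]
    · exact ⟨a, by simp [hab], by simp⟩
    · intro c hc
      simp only [mem_filter, mem_univ, true_and] at hc ⊢
      exact hc.trans hab
  exact ⟨rk, fun a b => hrk.lt_iff_lt⟩

theorem exists_time {V : Type} [Fintype V] (G : SimpleGraph V) (ord : LinearOrder G.edgeSet) :
    ∃ t : V → V → ℕ, (∀ u v, t u v = t v u) ∧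
      ∀ u v x y (h : G.Adj u v) (h' : G.Adj x y),
        (t u v < t x y ↔ ord.lt ⟨s(u, v), h⟩ ⟨s(x, y), h'⟩) := by
  classical
  obtain ⟨rk, hrk⟩ := @exists_rank G.edgeSet _ ord
  refine ⟨fun u v => if h : G.Adj u v then rk ⟨s(u, v), h⟩ else 0, fun u v => ?_,
    fun u v x y h h' => ?_⟩
  · by_cases h : G.Adj u v
    · simp only [h, h.symm, dif_pos]
      congr 2
      exact Sym2.eq_swap
    · have h' : ¬ G.Adj v u := fun h' => h h'.symm
      simp only [h, h', dif_neg, not_false_eq_true]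
  · simp only [h, h', dif_pos]
    exact hrk _ _

theorem upper_fin {V : Type} [Fintype V] (G : SimpleGraph V) (ord : LinearOrder G.edgeSet)
    (hG : ¬ Contains G ord) (L : ℕ) (hL : 2 ≤ L) :
    G.edgeSet.ncard ≤ 2 * Fintype.card V *
      (2 * lev L (Fintype.card V) + 3 + (Nat.log L (Fintype.card V) + 1) ^ 2) := by
  classical
  obtain ⟨t, tsymm, ht⟩ := exists_time G ord
  obtain ⟨s, hs⟩ := exists_cut G.Adj (fun u v h => h.ne)
  let adj : V → V → Prop := fun u v => G.Adj u v ∧ s u ≠ s v
  have symm : ∀ u v, adj u v → adj v u := fun u v h => ⟨h.1.symm, h.2.symm⟩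
  have tinj : ∀ u v x y, adj u v → adj x y → t u v = t x y →
      (u = x ∧ v = y) ∨ (u = y ∧ v = x) := by
    intro u v x y h h' e
    have a := (ht u v x y h.1 h'.1).not.1 (by omega)
    have b := (ht x y u v h'.1 h.1).not.1 (by omega)
    have := @le_antisymm _ ord.toPartialOrder _ _ (@le_of_not_gt _ ord _ _ b)
      (@le_of_not_gt _ ord _ _ a)
    exact Sym2.eq_iff.1 (congrArg Subtype.val this)
  have tinj' : ∀ u v w, adj u v → adj u w → t u v = t u w → v = w := by
    intro u v w h h' e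
    rcases tinj _ _ _ _ h h' e with g | g
    · exact g.2
    · exact absurd g.1 h'.1.ne
  have hm : ∀ v : V, ∃ mv : ℕ, (∀ z1 z2, adj v z1 → adj v z2 → t v z1 < t v z2 → mv ≤ t v z2) ∧
      ∀ a b, mv < t a b → ∃ z1 z2, adj v z1 ∧ adj v z2 ∧ t v z1 < t v z2 ∧ t v z2 = mv := by
    intro v
    by_cases h : ∃ k, ∃ z1 z2, adj v z1 ∧ adj v z2 ∧ t v z1 < t v z2 ∧ t v z2 = k
    · exact ⟨Nat.find h, fun z1 z2 h1 h2 h3 => Nat.find_min' h ⟨z1, z2, h1, h2, h3, rfl⟩,
        fun _ _ _ => Nat.find_spec h⟩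
    · refine ⟨univ.sup fun e : V × V => t e.1 e.2,
        fun z1 z2 h1 h2 h3 => absurd ⟨_, z1, z2, h1, h2, h3, rfl⟩ h, fun a b hab => ?_⟩
      exact absurd (le_sup (f := fun e : V × V => t e.1 e.2) (mem_univ (a, b))) (not_le.2 hab)
  choose m hm1 hm2 using hm
  have hC : ∀ u x y z, adj u x → adj u y → adj y z → t u x < t u y → m x < t y z →
      t y z < t u x → False := by
    intro u x y z hux huy hyz h1 h2 h3
    obtain ⟨z1, z2, a1, a2, a3, a4⟩ := hm2 x _ _ h2
    obtain ⟨w, hw, hwz, hwt⟩ : ∃ w, adj x w ∧ w ≠ z ∧ t x w ≤ m x := by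
      by_cases h : z1 = z
      · refine ⟨z2, a2, fun h' => ?_, a4.le⟩
        rw [h, h'] at a3
        omega
      · exact ⟨z1, a1, h, by omega⟩
    have hwu : w ≠ u := by
      rintro rfl
      rw [tsymm] at hwt
      omega
    have huz : u ≠ z := by
      rintro rfl
      rw [tsymm] at h3
      omega
    have hxy : x ≠ y := by
      rintro rfl
      omega
    have b1 := hux.2
    have b2 := huy.2
    have b3 := hyz.2
    have b4 := hw.2
    have hwy : w ≠ y := by
      rintro rfl
      revert b1 b2 b4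
      cases s u <;> cases s x <;> cases s w <;> simp
    have hxz : x ≠ z := by
      rintro rfl
      revert b1 b2 b3
      cases s u <;> cases s x <;> cases s y <;> simp
    apply hG
    refine ⟨![w, x, u, y, z], ?_, hw.1.symm, hux.1.symm, huy.1, hyz.1, ?_, ?_, ?_⟩
    · have c1 := hw.1.ne
      have c2 := hux.1.ne
      have c3 := huy.1.ne
      have c4 := hyz.1.ne
      intro i j hij
      fin_cases i <;> fin_cases j <;> simp_all
    · exact (ht _ _ _ _ _ _).1 (by change t w x < t y z; rw [tsymm]; omega)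
    · exact (ht _ _ _ _ _ _).1 (by change t y z < t x u; rw [tsymm x]; omega)
    · exact (ht _ _ _ _ _ _).1 (by change t x u < t u y; rw [tsymm x]; omega)
  have hcore := core adj t m L hL symm tsymm tinj (fun o w _ h => by
    obtain ⟨-, z2, -, a2, -, a4⟩ := hm2 o _ _ h
    exact ⟨z2, a2, a4⟩) hC
  have early : #{e : V × V | adj e.1 e.2 ∧ t e.1 e.2 ≤ m e.1} ≤ 2 * Fintype.card V := by
    rw [← card_univ (α := V)]
    apply card_le_mul_card_image_of_maps_to (f := fun e : V × V => e.1) (fun _ _ => mem_univ _)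
    intro v _
    by_contra hc
    obtain ⟨⟨a, a'⟩, ⟨b, b'⟩, ⟨c, c'⟩, ha, hb, hc, hab, hac, hbc⟩ := two_lt_card_iff.1 (not_le.1 hc)
    simp only [mem_filter, mem_univ, true_and] at ha hb hc
    obtain ⟨⟨ha1, ha2⟩, rfl⟩ := ha
    obtain ⟨⟨hb1, hb2⟩, rfl⟩ := hb
    obtain ⟨⟨hc1, hc2⟩, rfl⟩ := hc
    have n1 : t c a' ≠ t c b' := fun h => hab (by rw [tinj' _ _ _ ha1 hb1 h])
    have n2 : t c a' ≠ t c c' := fun h => hac (by rw [tinj' _ _ _ ha1 hc1 h])
    have n3 : t c b' ≠ t c c' := fun h => hbc (by rw [tinj' _ _ _ hb1 hc1 h])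
    have := hm1 c a' b' ha1 hb1
    have := hm1 c b' a' hb1 ha1
    have := hm1 c a' c' ha1 hc1
    have := hm1 c c' a' hc1 ha1
    have := hm1 c b' c' hb1 hc1
    have := hm1 c c' b' hc1 hb1
    omega
  have swap : ∀ (p : V × V → Prop) [DecidablePred p],
      #{e : V × V | p e.swap} = #{e : V × V | p e} := by
    intro p _
    apply card_bij (fun e _ => e.swap)
    · intro e he
      simpa using he
    · intro a _ b _ h
      exact Prod.swap_injective h
    · intro e he
      exact ⟨e.swap, by simpa using he, rfl⟩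
  have total : #{e : V × V | adj e.1 e.2} ≤
      #{e : V × V | adj e.1 e.2 ∧ t e.1 e.2 ≤ m e.1} +
      #{e : V × V | adj e.swap.1 e.swap.2 ∧ t e.swap.1 e.swap.2 ≤ m e.swap.1} +
      #{e : V × V | adj e.1 e.2 ∧ m e.1 < m e.2 ∧ m e.2 < t e.1 e.2} +
      #{e : V × V | adj e.swap.1 e.swap.2 ∧ m e.swap.1 < m e.swap.2 ∧
        m e.swap.2 < t e.swap.1 e.swap.2} := by
    refine le_trans (card_le_card ?_) ((card_union_le _ _).trans (add_le_add
      ((card_union_le _ _).trans (add_le_add (card_union_le _ _) le_rfl)) le_rfl))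
    rintro ⟨u, v⟩ he
    simp only [mem_union, mem_filter, mem_univ, true_and, Prod.fst_swap, Prod.snd_swap] at he ⊢
    have he' := symm _ _ he
    simp only [he, he', true_and, tsymm v u]
    by_contra hc
    have h1 : m u < t u v := by omega
    have h2 : m u = m v := by omega
    obtain ⟨-, z, -, a2, -, a4⟩ := hm2 u _ _ h1
    obtain ⟨-, z', -, b2, -, b4⟩ := hm2 v u v (by omega)
    rcases tinj _ _ _ _ a2 b2 (by omega) with g | g
    · exact he.1.ne g.1
    · rw [g.2] at a4
      omega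
  rw [swap (fun e => adj e.1 e.2 ∧ t e.1 e.2 ≤ m e.1),
    swap (fun e => adj e.1 e.2 ∧ m e.1 < m e.2 ∧ m e.2 < t e.1 e.2)] at total
  have h2 := G.two_mul_card_edgeFinset
  have h3 : G.edgeSet.ncard = #G.edgeFinset := by
    rw [← SimpleGraph.coe_edgeFinset, Set.ncard_coe_finset]
  have h4 : #(univ.filter fun (x, y) => G.Adj x y) = #{e : V × V | G.Adj e.1 e.2} := rfl
  have h5 : #{e : V × V | G.Adj e.1 e.2 ∧ s e.1 ≠ s e.2} = #{e : V × V | adj e.1 e.2} := rfl
  rw [h3]
  nlinarith

end Pool.Agent.Lib.MP_9486b1_co
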