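import Mathlib
import Pool.Agent.Lib.MP_9486b1_co.Upper
import Pool.Agent.Lib.MP_9486b1_co.Lower

/-!
Explicit asymptotic bounds.
-/

set_option autoImplicit false

namespace Pool.Agent.Lib.MP_9486b1_co

theorem log_facts {x : ℝ} (hx : 256 ≤ x) :
    1 ≤ Real.log x ∧ 5 * Real.log x ≤ x ∧ Real.log x ^ 2 ≤ 16 * √x := by
  have hx0 : 0 < x := by linarith
  have h1 : 1 ≤ Real.log x := by
    rw [Real.le_log_iff_exp_le hx0]
    linarith [Real.exp_one_lt_d9]
  set w := √(√x) with hw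
  have hs : 16 ≤ √x := Real.le_sqrt_of_sq_le (by linarith)
  have hw4 : 4 ≤ w := Real.le_sqrt_of_sq_le (by linarith)
  have hw2 : w ^ 2 = √x := Real.sq_sqrt (by linarith)
  have hx4 : w ^ 4 = x := by
    rw [show w ^ 4 = (w ^ 2) ^ 2 by ring, hw2, Real.sq_sqrt hx0.le]
  have h2 : Real.log x ≤ 4 * w := by
    rw [← hx4, Real.log_pow]
    have := Real.log_le_sub_one_of_pos (show 0 < w by linarith)
    push_cast
    linarith
  refine ⟨h1, ?_, ?_⟩
  · have : 64 ≤ w ^ 3 := by nlinarith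
    nlinarith
  · nlinarith

theorem lower_asymp {n : ℕ} (hn : 256 ≤ Real.log n) :
    (n : ℝ) * (Real.log n / Real.log (Real.log n)) ^ 2 ≤ 2400 * ex n := by
  obtain ⟨h1, h2, -⟩ := log_facts hn
  have hn0 : (0 : ℝ) < n := by
    rcases Nat.eq_zero_or_pos n with rfl | h
    · norm_num at hn
    · exact_mod_cast h
  set x := Real.log n with hx
  set y := Real.log x with hy
  have hy0 : 0 < y := by linarith
  have hz : 1 ≤ x / (5 * y) := by rw [le_div_iff₀ (by positivity)]; linarith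
  set D := ⌊x / (5 * y)⌋₊ with hD
  have hD1 : 1 ≤ D := Nat.le_floor (by simpa using hz)
  have hD1' : (1 : ℝ) ≤ D := by exact_mod_cast hD1
  have hD2 : (D : ℝ) ≤ x / (5 * y) := Nat.floor_le (by linarith)
  have hD3 : x / (5 * y) < D + 1 := Nat.lt_floor_add_one _
  have hD4 : (D : ℝ) * (5 * y) ≤ x := by rwa [le_div_iff₀ (by positivity)] at hD2
  have hD5 : (D : ℝ) ≤ Real.exp y := by
    rw [hy, Real.exp_log (by linarith)]
    nlinarith
  have hfin : 6 * D ^ (4 * D) ≤ n := by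
    have a1 := pow_le_pow_left₀ (by positivity) hD5 (4 * D)
    rw [← Real.exp_nat_mul] at a1
    have a2 : Real.exp (((4 * D : ℕ) : ℝ) * y) ≤ Real.exp (4 * x / 5) :=
      Real.exp_le_exp.2 (by push_cast; linarith)
    have a3 : (6 : ℝ) ≤ Real.exp (x / 5) := le_trans (by linarith) (Real.add_one_le_exp _)
    have a4 : Real.exp (x / 5) * Real.exp (4 * x / 5) = n := by
      rw [← Real.exp_add, show x / 5 + 4 * x / 5 = x by ring, hx, Real.exp_log hn0]
    have a5 : (6 : ℝ) * (D : ℝ) ^ (4 * D) ≤ n := by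
      rw [← a4]
      exact mul_le_mul a3 (a1.trans a2) (by positivity) (by positivity)
    exact_mod_cast a5
  have hl : (D : ℝ) ^ 2 * n ≤ 24 * ex n := by exact_mod_cast lower_fin hD1 hfin
  have hxy : x / y ≤ 10 * D := by
    have : x / y = 5 * (x / (5 * y)) := by field_simp
    linarith
  have hxy2 : (x / y) ^ 2 ≤ (10 * D) ^ 2 :=
    pow_le_pow_left₀ (div_nonneg (by linarith) hy0.le) hxy 2
  have := mul_le_mul_of_nonneg_left hxy2 hn0.le
  nlinarith

theorem upper_asymp {n : ℕ} (hn : 256 ≤ Real.log n) :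
    (ex n : ℝ) ≤ 216 * ((n : ℝ) * (Real.log n / Real.log (Real.log n)) ^ 2) := by
  obtain ⟨h1, h2, h3⟩ := log_facts hn
  have hn1 : 1 ≤ n := by
    rcases Nat.eq_zero_or_pos n with rfl | h
    · norm_num at hn
    · exact h
  have hn0 : (0 : ℝ) < n := by exact_mod_cast hn1
  have hs : 16 ≤ √(Real.log n) := Real.le_sqrt_of_sq_le (by linarith)
  set L := ⌈√(Real.log n)⌉₊ with hL
  have hL1 : √(Real.log n) ≤ L := Nat.le_ceil _
  have hL2 : (L : ℝ) < √(Real.log n) + 1 := Nat.ceil_lt_add_one (by linarith)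
  have hL3 : 2 ≤ L := by
    have : (2 : ℝ) ≤ L := by linarith
    exact_mod_cast this
  have hb : ex n ≤ 2 * n * (2 * lev L n + 3 + (Nat.log L n + 1) ^ 2) := by
    apply csSup_le'
    rintro k ⟨G, ord, hG, rfl⟩
    simpa using upper_fin G ord hG L hL3
  have hb' : (ex n : ℝ) ≤ 2 * n * (2 * lev L n + 3 + ((Nat.log L n : ℝ) + 1) ^ 2) := by
    exact_mod_cast hb
  have c1 := lev_le (L := L) (by omega) hn1
  have c2 : (Nat.log L n : ℝ) * Real.log L ≤ Real.log n := by
    rw [← Real.log_pow]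
    apply Real.log_le_log (by positivity)
    exact_mod_cast Nat.pow_log_le_self L (by omega)
  have c3 : Real.log (Real.log n) / 2 ≤ Real.log L := by
    rw [← Real.log_sqrt (by linarith)]
    exact Real.log_le_log (by linarith) hL1
  have hsq : √(Real.log n) * √(Real.log n) = Real.log n := Real.mul_self_sqrt (by linarith)
  set x := Real.log n with hx
  set y := Real.log x with hy
  have hy0 : 0 < y := by linarith
  have hz : 1 ≤ x / y := by rw [le_div_iff₀ hy0]; linarith
  have c4 : (Nat.log L n : ℝ) ≤ 2 * (x / y) := by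
    rw [← mul_div_assoc, le_div_iff₀ hy0]
    have := mul_le_mul_of_nonneg_left c3 (Nat.cast_nonneg (α := ℝ) (Nat.log L n))
    linarith
  have c5 : √x * x ≤ 16 * (x / y) ^ 2 := by
    rw [div_pow, ← mul_div_assoc, le_div_iff₀ (by positivity)]
    have : 0 ≤ √x * x := by positivity
    have := mul_le_mul_of_nonneg_left h3 this
    nlinarith
  have c6 : (lev L n : ℝ) ≤ 48 * (x / y) ^ 2 := by
    have : ((L : ℝ) + 1) * x ≤ 3 * √x * x := mul_le_mul_of_nonneg_right (by linarith) (by linarith)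
    linarith
  have c7 : ((Nat.log L n : ℝ) + 1) ^ 2 ≤ (3 * (x / y)) ^ 2 :=
    pow_le_pow_left₀ (by positivity) (by linarith) 2
  have c8 : 1 ≤ (x / y) ^ 2 := one_le_pow₀ hz
  refine hb'.trans ?_
  have : 2 * (lev L n : ℝ) + 3 + ((Nat.log L n : ℝ) + 1) ^ 2 ≤ 108 * (x / y) ^ 2 := by nlinarith
  have := mul_le_mul_of_nonneg_left this (show (0 : ℝ) ≤ 2 * n by positivity)
  linarith

end Pool.Agent.Lib.MP_9486b1_co
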